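import Pool.Agent.helper68.QZ.Spec
import Pool.Agent.helper57.LD.Z0
import Pool.Agent.helper98.EV.PW

set_option autoImplicit false

namespace Pool.Agent.QZ

open N1f72dd46 Filter MeasureTheory Complex Metric Pool.Agent.helper6.LD
open scoped ComplexConjugate

/-- `Λ(n) n^(-1/2-δ)` for `n` not prime -/
noncomputable def PP_F0 (δ : ℝ) (n : ℕ) : ℝ :=
  (if n.Prime then 0 else ArithmeticFunction.vonMangoldt n) * (n : ℝ) ^ (-(1 / 2 + δ) : ℝ)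

noncomputable def PP_F1 (δ : ℝ) (pk : Nat.Primes × ℕ) : ℝ := PP_F0 δ (pk.1 ^ (pk.2 + 1))

noncomputable def PP_F2 (δ : ℝ) : Nat.Primes × ℕ → ℝ := PP_F1 δ ∘ (Prod.map _root_.id (· + 1))

theorem PP_F0_nonneg (δ : ℝ) (n : ℕ) : 0 ≤ PP_F0 δ n := by
  unfold PP_F0
  have h := ArithmeticFunction.vonMangoldt_nonneg (n := n)
  refine mul_nonneg ?_ (Real.rpow_nonneg n.cast_nonneg _)
  split_ifs
  · exact le_rfl
  · exact h

theorem PP_F2_le {δ : ℝ} (hδ : 0 < δ) (p : Nat.Primes) (k : ℕ) :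
    PP_F2 δ (p, k) ≤ (δ⁻¹ * (p : ℝ) ^ (-(1 + δ) : ℝ)) * ((2 : ℝ) ^ (-(1 / 2 + δ) : ℝ)) ^ k := by
  have hp : (0 : ℝ) < (p : ℕ) := by exact_mod_cast p.prop.pos
  have hp2 : (2 : ℝ) ≤ (p : ℕ) := by exact_mod_cast p.prop.two_le
  have h1 : PP_F2 δ (p, k) = Real.log p * (((p : ℕ) : ℝ) ^ (k + 2)) ^ (-(1 / 2 + δ) : ℝ) := by
    simp only [PP_F2, Function.comp_apply, PP_F1, PP_F0, Prod.map_apply, id_eq,
      le_add_iff_nonneg_left, zero_le, Nat.Prime.not_prime_pow, if_false,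
      ArithmeticFunction.vonMangoldt_apply_prime p.prop,
      ArithmeticFunction.vonMangoldt_apply_pow (Nat.zero_ne_add_one _).symm, Nat.cast_pow]
  rw [h1]
  have h2 : (((p : ℕ) : ℝ) ^ (k + 2)) ^ (-(1 / 2 + δ) : ℝ) =
      (((p : ℕ) : ℝ) ^ (-(1 / 2 + δ) : ℝ)) ^ k * ((p : ℕ) : ℝ) ^ (-(1 + 2 * δ) : ℝ) := by
    rw [← Real.rpow_natCast, ← Real.rpow_natCast, ← Real.rpow_mul hp.le, ← Real.rpow_mul hp.le,
      ← Real.rpow_add hp]
    congr 1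
    push_cast
    ring
  rw [h2]
  have h3 : Real.log p ≤ δ⁻¹ * ((p : ℕ) : ℝ) ^ δ := by
    have := Real.log_le_rpow_div hp.le hδ
    calc Real.log p ≤ ((p : ℕ) : ℝ) ^ δ / δ := this
      _ = δ⁻¹ * ((p : ℕ) : ℝ) ^ δ := by ring
  have h4 : (((p : ℕ) : ℝ) ^ (-(1 / 2 + δ) : ℝ)) ^ k ≤ ((2 : ℝ) ^ (-(1 / 2 + δ) : ℝ)) ^ k := by
    refine pow_le_pow_left₀ (Real.rpow_nonneg hp.le _) ?_ k
    exact Real.rpow_le_rpow_of_nonpos (by norm_num) hp2 (by linarith)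
  have h5 : (δ⁻¹ * ((p : ℕ) : ℝ) ^ δ) * ((p : ℕ) : ℝ) ^ (-(1 + 2 * δ) : ℝ) =
      δ⁻¹ * ((p : ℕ) : ℝ) ^ (-(1 + δ) : ℝ) := by
    rw [mul_assoc, ← Real.rpow_add hp]
    congr 2
    ring
  have h6 : 0 ≤ Real.log p := Real.log_nonneg (by linarith)
  have hδi : 0 ≤ δ⁻¹ := inv_nonneg.2 hδ.le
  calc Real.log p * ((((p : ℕ) : ℝ) ^ (-(1 / 2 + δ) : ℝ)) ^ k * ((p : ℕ) : ℝ) ^ (-(1 + 2 * δ) : ℝ))
      ≤ (δ⁻¹ * ((p : ℕ) : ℝ) ^ δ) *
        (((2 : ℝ) ^ (-(1 / 2 + δ) : ℝ)) ^ k * ((p : ℕ) : ℝ) ^ (-(1 + 2 * δ) : ℝ)) := by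
        gcongr
    _ = ((δ⁻¹ * ((p : ℕ) : ℝ) ^ δ) * ((p : ℕ) : ℝ) ^ (-(1 + 2 * δ) : ℝ)) *
        ((2 : ℝ) ^ (-(1 / 2 + δ) : ℝ)) ^ k := by ring
    _ = _ := by rw [h5]

theorem PP_F2_summable {δ : ℝ} (hδ : 0 < δ) : Summable (PP_F2 δ) := by
  have hδi : 0 ≤ δ⁻¹ := inv_nonneg.2 hδ.le
  have h1 : Summable (fun p : Nat.Primes => δ⁻¹ * ((p : ℕ) : ℝ) ^ (-(1 + δ) : ℝ)) :=
    (Nat.Primes.summable_rpow.mpr (by linarith)).mul_left _
  have h2 : Summable (fun k : ℕ => ((2 : ℝ) ^ (-(1 / 2 + δ) : ℝ)) ^ k) := by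
    refine summable_geometric_of_lt_one (by positivity) ?_
    exact Real.rpow_lt_one_of_one_lt_of_neg (by norm_num) (by linarith)
  have h3 := h1.mul_of_nonneg h2 (fun p => by positivity) (fun k => by positivity)
  refine h3.of_nonneg_of_le (fun pk => ?_) (fun pk => PP_F2_le hδ pk.1 pk.2)
  exact PP_F0_nonneg _ _

theorem PP_F0_summable {δ : ℝ} (hδ : 0 < δ) : Summable (PP_F0 δ) := by
  have hF₀ (p : Nat.Primes) : PP_F0 δ p.val = 0 := by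
    simp only [p.prop, if_true, zero_mul, PP_F0]
  refine (summable_subtype_iff_indicator (s := {n | IsPrimePow n}).mp ?_).congr
      fun n ↦ Set.indicator_apply_eq_self.mpr fun (hn : ¬ IsPrimePow n) ↦ ?_
  swap
  · have h0 : ArithmeticFunction.vonMangoldt n = 0 :=
      ArithmeticFunction.vonMangoldt_eq_zero_iff.2 hn
    unfold PP_F0
    rw [h0]
    simp
  have hFF' :
      PP_F0 δ ∘ Subtype.val (p := fun n ↦ n ∈ {n | IsPrimePow n}) =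
        PP_F1 δ ∘ ⇑Nat.Primes.prodNatEquiv.symm := by
    refine (Equiv.eq_comp_symm Nat.Primes.prodNatEquiv (PP_F0 δ ∘ Subtype.val) (PP_F1 δ)).mpr ?_
    ext1 n
    simp only [Function.comp_apply, PP_F1]
    congr
  rw [hFF']
  refine (Nat.Primes.prodNatEquiv.symm.summable_iff (f := PP_F1 δ)).mpr ?_
  have hF'₀ (p : Nat.Primes) : PP_F1 δ (p, 0) = 0 := by
    simp only [zero_add, pow_one, hF₀, PP_F1]
  have hF'₁ : PP_F2 δ = PP_F1 δ ∘ (Prod.map _root_.id (· + 1)) := rfl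
  refine (Function.Injective.summable_iff ?_ fun u hu ↦ ?_).mp <| hF'₁ ▸ PP_F2_summable hδ
  · exact Function.Injective.prodMap (fun ⦃a₁ a₂⦄ a ↦ a) <| add_left_injective 1
  · simp only [Set.range_prodMap, Set.range_id, Set.mem_prod, Set.mem_univ, Set.mem_range,
      Nat.exists_add_one_eq, true_and, not_lt, nonpos_iff_eq_zero] at hu
    rw [← hF'₀ u.1, ← hu]

/-- the term -/
noncomputable def PP_a (σ t : ℝ) (k n : ℕ) : ℂ := (wt σ (k + 1) n : ℂ) * (n : ℂ) ^ (-(t * I))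

theorem PP_wt_nonneg (σ : ℝ) (k n : ℕ) : 0 ≤ wt σ (k + 1) n := by
  unfold wt
  have h := ArithmeticFunction.vonMangoldt_nonneg (n := n)
  have h2 : 0 ≤ Real.log n := Real.log_natCast_nonneg n
  positivity

theorem PP_norm_le (σ t : ℝ) (k n : ℕ) : ‖PP_a σ t k n‖ ≤ wt σ (k + 1) n := by
  unfold PP_a
  have h0 := PP_wt_nonneg σ k n
  rcases Nat.eq_zero_or_pos n with rfl | hn
  · have h1 : wt σ (k + 1) 0 = 0 := by
      unfold wt
      simp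
    rw [h1]
    simp
  · rw [norm_mul, Complex.norm_natCast_cpow_of_pos hn]
    have h1 : (-(↑t * I) : ℂ).re = 0 := by simp
    rw [h1, Real.rpow_zero, mul_one, Complex.norm_real, Real.norm_of_nonneg h0]

theorem PP_nonprime {δ σ : ℝ} (t : ℝ) (k n : ℕ) (hr : 0 < σ - 1 / 2 - δ) (hn : ¬ n.Prime) :
    ‖PP_a σ t k n‖ ≤ ((σ - 1 / 2 - δ) ^ k)⁻¹ * PP_F0 δ n := by
  refine (PP_norm_le σ t k n).trans ?_
  rcases Nat.eq_zero_or_pos n with rfl | hp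
  · have h1 : wt σ (k + 1) 0 = 0 := by
      unfold wt
      simp
    rw [h1]
    exact mul_nonneg (by positivity) (PP_F0_nonneg _ 0)
  · have hnp : (0 : ℝ) < n := by exact_mod_cast hp
    unfold wt PP_F0
    rw [if_neg hn, Nat.add_sub_cancel]
    have h := ArithmeticFunction.vonMangoldt_nonneg (n := n)
    have h1 := Pool.Agent.EV.PW_le k n (σ - 1 / 2 - δ) hr hp
    have h2 : (n : ℝ) ^ (-(1 / 2 + δ) : ℝ) = (n : ℝ) ^ (σ - 1 / 2 - δ : ℝ) * (n : ℝ) ^ (-σ : ℝ) := by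
      rw [← Real.rpow_add hnp]
      congr 1
      ring
    rw [h2]
    calc ArithmeticFunction.vonMangoldt n * Real.log n ^ k / k.factorial * (n : ℝ) ^ (-σ : ℝ)
        = ArithmeticFunction.vonMangoldt n * (Real.log n ^ k / k.factorial) *
          (n : ℝ) ^ (-σ : ℝ) := by ring
      _ ≤ ArithmeticFunction.vonMangoldt n *
          ((n : ℝ) ^ (σ - 1 / 2 - δ : ℝ) / (σ - 1 / 2 - δ) ^ k) * (n : ℝ) ^ (-σ : ℝ) := by gcongr
      _ = _ := by ring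

theorem PP_term (σ t : ℝ) (k : ℕ) (p : Nat.Primes) :
    (Real.log (p : ℕ) : ℂ) * ((Real.log (p : ℕ) : ℂ) ^ k / (k.factorial : ℂ)) *
      ((p : ℕ) : ℂ) ^ (-((σ : ℂ) + t * I)) = PP_a σ t k p := by
  have hp : (0 : ℝ) < (p : ℕ) := by exact_mod_cast p.prop.pos
  have hp0 : (((p : ℕ) : ℂ)) ≠ 0 := by
    exact_mod_cast p.prop.ne_zero
  unfold PP_a wt
  rw [ArithmeticFunction.vonMangoldt_apply_prime p.prop, Nat.add_sub_cancel]
  have h1 : ((p : ℕ) : ℂ) ^ (-((σ : ℂ) + t * I)) =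
      (((((p : ℕ) : ℝ) ^ (-σ : ℝ) : ℝ)) : ℂ) * ((p : ℕ) : ℂ) ^ (-(t * I)) := by
    have h2 : (-((σ : ℂ) + t * I)) = ((-σ : ℝ) : ℂ) + (-(t * I)) := by
      push_cast
      ring
    rw [h2, Complex.cpow_add _ _ hp0]
    congr 1
    rw [Complex.ofReal_cpow hp.le]
    push_cast
    rfl
  rw [h1]
  push_cast
  ring

theorem PP : PP_stmt := by
  classical
  intro δ hδ hδ4
  have hS : 0 ≤ ∑' n, PP_F0 δ n := tsum_nonneg (PP_F0_nonneg δ)
  refine ⟨(∑' n, PP_F0 δ n) + 1, by positivity, ?_⟩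
  intro k σ t hσ
  have hr : 0 < σ - 1 / 2 - δ := by linarith
  set P : Set ℕ := {p | p.Prime} with hP
  have hs : Summable (PP_a σ t k) :=
    Summable.of_norm_bounded (wt_summable (by linarith : (1 : ℝ) < σ) (k + 1)) (PP_norm_le σ t k)
  have hs1 : Summable (P.indicator (PP_a σ t k)) := hs.indicator P
  have hs2 : Summable (Pᶜ.indicator (PP_a σ t k)) := hs.indicator Pᶜ
  have h1 : fp k ((σ : ℂ) + t * I) = ∑' n : ℕ, P.indicator (PP_a σ t k) n := by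
    unfold fp
    rw [← tsum_subtype]
    exact tsum_congr fun p => PP_term σ t k p
  have hb : ∀ n, ‖Pᶜ.indicator (PP_a σ t k) n‖ ≤ ((σ - 1 / 2 - δ) ^ k)⁻¹ * PP_F0 δ n := by
    intro n
    by_cases hn : n.Prime
    · rw [Set.indicator_of_notMem (by simpa [hP] using hn), norm_zero]
      exact mul_nonneg (by positivity) (PP_F0_nonneg _ n)
    · rw [Set.indicator_of_mem (by simpa [hP] using hn)]
      exact PP_nonprime t k n hr hn
  have hsb : Summable (fun n => ((σ - 1 / 2 - δ) ^ k)⁻¹ * PP_F0 δ n) :=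
    (PP_F0_summable hδ).mul_left _
  have h2 : (∑' n : ℕ, (wt σ (k + 1) n : ℂ) * (n : ℂ) ^ (-(t * I))) =
      (∑' n : ℕ, P.indicator (PP_a σ t k) n) + ∑' n : ℕ, Pᶜ.indicator (PP_a σ t k) n := by
    rw [← hs1.tsum_add hs2]
    refine tsum_congr fun n => ?_
    have h3 := congrFun (Set.indicator_self_add_compl P (PP_a σ t k)) n
    rw [Pi.add_apply] at h3
    exact h3.symm
  rw [h2, h1, add_sub_cancel_left]
  calc ‖∑' n : ℕ, Pᶜ.indicator (PP_a σ t k) n‖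
      ≤ ∑' n, ((σ - 1 / 2 - δ) ^ k)⁻¹ * PP_F0 δ n := tsum_of_norm_bounded hsb.hasSum hb
    _ = ((σ - 1 / 2 - δ) ^ k)⁻¹ * ∑' n, PP_F0 δ n := tsum_mul_left
    _ ≤ ((∑' n, PP_F0 δ n) + 1) * ((σ - 1 / 2 - δ) ^ k)⁻¹ := by
        have h4 : 0 ≤ ((σ - 1 / 2 - δ) ^ k)⁻¹ := by positivity
        nlinarith

end Pool.Agent.QZ
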